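import Mathlib

open Topology Filter WeakDual

namespace Pool.Agent.Results.MP_591444_an.ContinuousFunctionsSubalgebra

/-- `IsFrechetAlgebra A`: `A` is a non-zero commutative unital complex algebra with a Hausdorff
topology given by an increasing sequence of submultiplicative seminorms, and complete (every
sequence that is Cauchy for all the seminorms converges). -/
structure IsFrechetAlgebra (A : Type) [CommRing A] [Algebra ℂ A] [TopologicalSpace A] : Prop where
  nontrivial : Nontrivial A
  t2 : T2Space A
  exists_seminorms : ∃ p : ℕ → Seminorm ℂ A, Monotone p ∧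
    (∀ m x y, p m (x * y) ≤ p m x * p m y) ∧
    (∀ x : A, 𝓝 x = ⨅ m, comap (fun y => p m (y - x)) (𝓝 0)) ∧
    (∀ u : ℕ → A, (∀ m, ∀ ε > 0, ∃ N, ∀ i ≥ N, ∀ j ≥ N, p m (u i - u j) < ε) →
      ∃ a, Tendsto u atTop (𝓝 a))

/-- A closed subalgebra of a Fréchet algebra is a Fréchet algebra. -/
theorem IsFrechetAlgebra.subalgebra {A : Type} [CommRing A] [Algebra ℂ A] [TopologicalSpace A]
    (hA : IsFrechetAlgebra A) (B : Subalgebra ℂ A) (hB : IsClosed (B : Set A)) :
    IsFrechetAlgebra B := by
  obtain ⟨hn, ht, p, hm, hs, hnh, hc⟩ := hA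
  refine ⟨⟨0, 1, ?_⟩, inferInstance, fun m => (p m).comp B.val.toLinearMap, ?_, ?_, ?_, ?_⟩
  · intro h
    exact zero_ne_one (congrArg (Subtype.val : B → A) h)
  · intro a b hab x
    exact hm hab _
  · intro m x y
    exact hs m _ _
  · intro x
    rw [nhds_subtype, hnh x.1, comap_iInf]
    simp only [comap_comap]
    rfl
  · intro u hu
    obtain ⟨a, ha⟩ := hc (fun n => (u n : A)) hu
    have : a ∈ B := hB.mem_of_tendsto ha (Eventually.of_forall fun n => (u n).2)
    exact ⟨⟨a, this⟩, tendsto_subtype_rng.2 ha⟩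

/-- the sup seminorm on a compact set -/
noncomputable def supOn {X : Type} [TopologicalSpace X] (K : Set X) [CompactSpace K] :
    Seminorm ℂ C(X, ℂ) :=
  (normSeminorm ℂ C(K, ℂ)).comp
    (ContinuousMap.compRightAlgHom ℂ ℂ (⟨Subtype.val, continuous_subtype_val⟩ : C(K, X))).toLinearMap

theorem supOn_apply {X : Type} [TopologicalSpace X] (K : Set X) [CompactSpace K] (f : C(X, ℂ)) :
    supOn K f = ‖f.restrict K‖ := rfl

theorem isFrechet_C (X : Type) [TopologicalSpace X] [Nonempty X] [WeaklyLocallyCompactSpace X]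
    [SigmaCompactSpace X] : IsFrechetAlgebra C(X, ℂ) := by
  let K : CompactExhaustion X := default
  have : ∀ m, CompactSpace (K m) := fun m => isCompact_iff_compactSpace.1 (K.isCompact m)
  refine ⟨inferInstance, inferInstance, fun m => supOn (K m), ?_, ?_, ?_, ?_⟩
  · intro a b hab f
    change ‖f.restrict (K a)‖ ≤ ‖f.restrict (K b)‖
    refine (ContinuousMap.norm_le _ (norm_nonneg _)).2 fun x => ?_
    exact ContinuousMap.norm_coe_le_norm (f.restrict (K b)) ⟨x.1, K.subset hab x.2⟩
  · intro m x y
    change ‖(x * y).restrict (K m)‖ ≤ ‖x.restrict (K m)‖ * ‖y.restrict (K m)‖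
    have : (x * y).restrict (K m) = x.restrict (K m) * y.restrict (K m) := rfl
    rw [this]
    exact norm_mul_le _ _
  · intro f
    have key : ∀ (s : Set X) (hs : IsCompact s), ∀ m, s ⊆ K m →
        comap (fun y => supOn (K m) (y - f)) (𝓝 0) ≤
          (𝓝 (f.restrict s)).comap (ContinuousMap.restrict s) := by
      intro s hs m hsm
      have : CompactSpace s := isCompact_iff_compactSpace.1 hs
      rw [← tendsto_iff_comap, tendsto_iff_norm_sub_tendsto_zero]
      have h1 : Tendsto (fun y => supOn (K m) (y - f))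
          (comap (fun y => supOn (K m) (y - f)) (𝓝 0)) (𝓝 0) := tendsto_comap
      refine squeeze_zero (fun _ => norm_nonneg _) (fun y => ?_) h1
      change _ ≤ ‖(y - f).restrict (K m)‖
      refine (ContinuousMap.norm_le _ (norm_nonneg _)).2 fun x => ?_
      exact ContinuousMap.norm_coe_le_norm ((y - f).restrict (K m)) ⟨x.1, hsm x.2⟩
    rw [ContinuousMap.nhds_compactOpen_eq_iInf_nhds_induced]
    refine le_antisymm ?_ ?_
    · refine le_iInf fun m => ?_
      refine (iInf₂_le (K m) (K.isCompact m)).trans ?_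
      rw [← tendsto_iff_comap]
      have h1 : Tendsto (ContinuousMap.restrict (K m))
          (comap (ContinuousMap.restrict (K m)) (𝓝 (f.restrict (K m)))) (𝓝 (f.restrict (K m))) :=
        tendsto_comap
      rw [tendsto_iff_norm_sub_tendsto_zero] at h1
      exact h1
    · refine le_iInf₂ fun s hs => ?_
      obtain ⟨m, hm⟩ := K.exists_superset_of_isCompact hs
      exact (iInf_le _ m).trans (key s hs m hm)
  · intro u hu
    have : CauchySeq u := by
      have hb := K.hasBasis_compactConvergenceUniformity (β := ℂ) Metric.uniformity_basis_dist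
      rw [hb.cauchySeq_iff]
      rintro ⟨m, ε⟩ hε
      obtain ⟨N, hN⟩ := hu m ε hε
      refine ⟨N, fun i hi j hj x hx => ?_⟩
      have h1 := hN i hi j hj
      have h2 : ‖(u i - u j).restrict (K m) ⟨x, hx⟩‖ ≤ ‖(u i - u j).restrict (K m)‖ :=
        ContinuousMap.norm_coe_le_norm _ _
      change dist (u i x) (u j x) < ε
      rw [dist_eq_norm]
      exact lt_of_le_of_lt h2 h1
    exact cauchySeq_tendsto_of_complete this

/-- `IsChart holAt U W g φ`: the map `φ` identifies the open set `U`, homeomorphically, with the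
common zero set of the finitely many holomorphic functions `g i` on the open set `W ⊆ ℂⁿ`, and the
functions which are holomorphic near a point `y` of `U` (in the sense of `holAt y`) are those which
agree near `y` with `F ∘ φ` for some `F` holomorphic near `φ y`. -/
structure IsChart {X : Type} [TopologicalSpace X] (holAt : X → (X → ℂ) → Prop) (U : Set X)
    {n k : ℕ} (W : Set (Fin n → ℂ)) (g : Fin k → (Fin n → ℂ) → ℂ) (φ : X → (Fin n → ℂ)) :
    Prop where
  isOpen_U : IsOpen U
  isOpen_W : IsOpen W
  analytic : ∀ i, AnalyticOnNhd ℂ (g i) W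
  embedding : IsEmbedding (U.domRestrict φ)
  image : φ '' U = {z | z ∈ W ∧ ∀ i, g i z = 0}
  hol : ∀ y ∈ U, ∀ f : X → ℂ,
    holAt y f ↔ ∃ F : (Fin n → ℂ) → ℂ, AnalyticAt ℂ F (φ y) ∧ f =ᶠ[𝓝 y] F ∘ φ

/-- A reduced complex space structure on a topological space `X`, given by saying which functions
`f : X → ℂ` are holomorphic near which points `x` (`holAt x f`); every point lies in the domain
of a chart. -/
structure ReducedComplexSpace (X : Type) [TopologicalSpace X] where
  holAt : X → (X → ℂ) → Prop
  local_model : ∀ x : X, ∃ (U : Set X) (n k : ℕ) (W : Set (Fin n → ℂ))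
    (g : Fin k → (Fin n → ℂ) → ℂ) (φ : X → (Fin n → ℂ)), x ∈ U ∧ IsChart holAt U W g φ

/-- The holomorphic functions on `X`. -/
def ReducedComplexSpace.Hol {X : Type} [TopologicalSpace X] (S : ReducedComplexSpace X) :
    Set (X → ℂ) := {f | ∀ x, S.holAt x f}

/-- Reduced Stein spaces: Hausdorff, second countable, holomorphically separable and
holomorphically convex (the holomorphic hull of every compact set is compact). -/
structure ReducedComplexSpace.IsStein {X : Type} [TopologicalSpace X]
    (S : ReducedComplexSpace X) : Prop where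
  t2 : T2Space X
  countable : SecondCountableTopology X
  separable : ∀ x y : X, x ≠ y → ∃ f ∈ S.Hol, f x ≠ f y
  convex : ∀ K : Set X, IsCompact K →
    IsCompact {x : X | ∀ f ∈ S.Hol, ∃ y ∈ K, ‖f x‖ ≤ ‖f y‖}

/-- The spectrum of `A`: the non-zero continuous characters with the weak-* topology. -/
abbrev Spectrum (A : Type) [CommRing A] [Algebra ℂ A] [TopologicalSpace A] : Type :=
  characterSpace ℂ A

/-- The restriction to `Y ⊆ M(A)` of the Gelfand transform of `a`. -/
noncomputable def gelfandOn {A : Type} [CommRing A] [Algebra ℂ A] [TopologicalSpace A] (Y : Set (Spectrum A))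
    (a : A) : Y → ℂ := fun χ => (χ : Spectrum A) a

/-- `A` is locally Stein: some non-empty open subset `Y` of the spectrum `M(A)` has the structure
of a reduced Stein space for which all Gelfand transforms are holomorphic on `Y` and the
completion (that is, the closure in `C(Y, ℂ)`, for the compact-open topology) of the algebra of
their restrictions to `Y` is `Hol(Y)`. -/
def IsLocallyStein (A : Type) [CommRing A] [Algebra ℂ A] [TopologicalSpace A] : Prop :=
  ∃ Y : Set (Spectrum A), IsOpen Y ∧ Y.Nonempty ∧
    ∃ S : ReducedComplexSpace Y, S.IsStein ∧ (∀ a : A, gelfandOn Y a ∈ S.Hol) ∧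
      closure {h : C(Y, ℂ) | ∃ a : A, (h : Y → ℂ) = gelfandOn Y a} =
        {h : C(Y, ℂ) | (h : Y → ℂ) ∈ S.Hol}

/-- Some non-empty open subset of the spectrum of `A` has the structure of a reduced complex space
for which all Gelfand transforms are holomorphic. -/
def HasHolomorphicPart (A : Type) [CommRing A] [Algebra ℂ A] [TopologicalSpace A] : Prop :=
  ∃ Y : Set (Spectrum A), IsOpen Y ∧ Y.Nonempty ∧
    ∃ S : ReducedComplexSpace Y, ∀ a : A, gelfandOn Y a ∈ S.Hol

/-! ### A space homeomorphic to `ℂ` is Stein -/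

/-- The reduced complex space structure transported from `ℂ`. -/
def ofHomeo {Y : Type} [TopologicalSpace Y] (h : Y ≃ₜ ℂ) : ReducedComplexSpace Y where
  holAt y f := AnalyticAt ℂ (f ∘ h.symm) (h y)
  local_model y := by
    refine ⟨Set.univ, 1, 0, Set.univ, fun i => i.elim0, fun z _ => h z, Set.mem_univ _,
      isOpen_univ, isOpen_univ, fun i => i.elim0, ?_, ?_, ?_⟩
    · have h1 : IsEmbedding (fun z : (Set.univ : Set Y) => h z.1) :=
        h.isEmbedding.comp IsEmbedding.subtypeVal
      have h2 : IsEmbedding (fun a : ℂ => (fun _ : Fin 1 => a)) :=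
        (Homeomorph.funUnique (Fin 1) ℂ).symm.isEmbedding
      exact h2.comp h1
    · ext w
      constructor
      · intro _
        exact ⟨Set.mem_univ _, fun i => i.elim0⟩
      · intro _
        refine ⟨h.symm (w 0), Set.mem_univ _, ?_⟩
        ext i
        rw [Subsingleton.elim i 0]
        simp
    · intro z _ f
      constructor
      · intro hf
        refine ⟨fun w => f (h.symm (w 0)), ?_, ?_⟩
        · have h1 : AnalyticAt ℂ (fun w : Fin 1 → ℂ => w 0) (fun _ => h z) :=
            (ContinuousLinearMap.proj (R := ℂ) (φ := fun _ : Fin 1 => ℂ) 0).analyticAt _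
          exact AnalyticAt.fun_comp (g := f ∘ h.symm) hf h1
        · refine Eventually.of_forall fun w => ?_
          simp
      · rintro ⟨F, hF, hfF⟩
        have h1 : AnalyticAt ℂ (fun a : ℂ => (fun _ : Fin 1 => a)) (h z) :=
          analyticAt_pi_iff.2 fun _ => analyticAt_id
        have h2 : AnalyticAt ℂ (fun a : ℂ => F (fun _ => a)) (h z) :=
          AnalyticAt.fun_comp (g := F) hF h1
        refine h2.congr ?_
        have h3 : Tendsto h.symm (𝓝 (h z)) (𝓝 z) := by
          have := h.symm.continuous.tendsto (h z)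
          rwa [h.symm_apply_apply] at this
        have h4 := h3.eventually hfF
        filter_upwards [h4] with a ha
        simp only [Function.comp_apply, ha, Homeomorph.apply_symm_apply]

theorem ofHomeo_mem_Hol {Y : Type} [TopologicalSpace Y] (h : Y ≃ₜ ℂ) (f : Y → ℂ) :
    f ∈ (ofHomeo h).Hol ↔ Differentiable ℂ (f ∘ h.symm) := by
  constructor
  · intro hf z
    have := hf (h.symm z)
    change AnalyticAt ℂ (f ∘ h.symm) (h (h.symm z)) at this
    rw [h.apply_symm_apply] at this
    exact this.differentiableAt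
  · intro hf y
    exact hf.analyticAt _

theorem ofHomeo_isStein {Y : Type} [TopologicalSpace Y] (h : Y ≃ₜ ℂ) : (ofHomeo h).IsStein := by
  have hz : (h : Y → ℂ) ∈ (ofHomeo h).Hol := by
    rw [ofHomeo_mem_Hol]
    have : (h : Y → ℂ) ∘ h.symm = id := by
      ext z; simp
    rw [this]
    exact differentiable_id
  refine ⟨h.symm.t2Space, h.isEmbedding.secondCountableTopology, ?_, ?_⟩
  · intro x y hxy
    exact ⟨h, hz, fun e => hxy (h.injective e)⟩
  · intro K hK
    -- the hull is closed and contained in a compact set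
    have hc : ∀ f ∈ (ofHomeo h).Hol, Continuous f := by
      intro f hf
      rw [ofHomeo_mem_Hol] at hf
      have : f = (f ∘ h.symm) ∘ h := by ext y; simp
      rw [this]
      exact hf.continuous.comp h.continuous
    have hK' : IsCompact (h '' K) := hK.image h.continuous
    obtain ⟨R, hR⟩ := hK'.isBounded.exists_norm_le
    have hcl : IsClosed {x : Y | ∀ f ∈ (ofHomeo h).Hol, ∃ y ∈ K, ‖f x‖ ≤ ‖f y‖} := by
      rcases K.eq_empty_or_nonempty with rfl | hne
      · convert isClosed_empty
        ext x
        simp only [Set.mem_empty_iff_false, false_and, exists_false, Set.mem_ofPred_eq, iff_false,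
          not_forall]
        exact ⟨h, hz, fun e => e⟩
      · have : {x : Y | ∀ f ∈ (ofHomeo h).Hol, ∃ y ∈ K, ‖f x‖ ≤ ‖f y‖} =
            ⋂ f ∈ (ofHomeo h).Hol, {x | ∃ y ∈ K, ‖f x‖ ≤ ‖f y‖} := by
          ext x; simp
        rw [this]
        refine isClosed_biInter fun f hf => ?_
        obtain ⟨y, hy, hm⟩ := hK.exists_isMaxOn hne (hc f hf).norm.continuousOn
        have : {x : Y | ∃ y ∈ K, ‖f x‖ ≤ ‖f y‖} = {x | ‖f x‖ ≤ ‖f y‖} := by
          ext x
          constructor
          · rintro ⟨w, hw, hxw⟩
            exact hxw.trans (hm hw)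
          · intro hx
            exact ⟨y, hy, hx⟩
        rw [this]
        exact isClosed_le (hc f hf).norm continuous_const
    have hcomp : IsCompact (h ⁻¹' Metric.closedBall 0 R) := by
      rw [h.isCompact_preimage]
      exact isCompact_closedBall _ _
    refine hcomp.of_isClosed_subset hcl fun x hx => ?_
    obtain ⟨y, hy, hxy⟩ := hx h hz
    have := hR (h y) ⟨y, hy, rfl⟩
    simpa using hxy.trans this

/-! ### The algebra `A = Hol(ℂ) × C([0,1])` -/

/-- the disjoint union of the complex plane and the unit interval -/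
abbrev X : Type := ℂ ⊕ unitInterval

instance : WeaklyLocallyCompactSpace X where
  exists_compact_mem_nhds x := by
    rcases x with z | t
    · obtain ⟨K, hK, hKz⟩ := exists_compact_mem_nhds z
      exact ⟨Sum.inl '' K, hK.image continuous_inl, isOpenMap_inl.image_mem_nhds hKz⟩
    · exact ⟨Sum.inr '' Set.univ, isCompact_univ.image continuous_inr,
        isOpenMap_inr.image_mem_nhds univ_mem⟩

/-- restriction of a continuous function on `X` to the plane -/
noncomputable def resL (f : C(X, ℂ)) : C(ℂ, ℂ) := f.comp ⟨Sum.inl, continuous_inl⟩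

/-- the continuous functions on the disjoint union of `ℂ` and `[0,1]` which are holomorphic
on `ℂ`, i.e. `Hol(ℂ) × C([0,1])`. -/
noncomputable def A : Subalgebra ℂ C(X, ℂ) where
  carrier := {f | Differentiable ℂ (fun z : ℂ => f (Sum.inl z))}
  mul_mem' := fun {a b} ha hb => Differentiable.mul ha hb
  add_mem' := fun {a b} ha hb => Differentiable.add ha hb
  algebraMap_mem' r := by
    change Differentiable ℂ (fun _ : ℂ => r)
    exact differentiable_const r

theorem mem_A (f : C(X, ℂ)) : f ∈ A ↔ Differentiable ℂ (fun z : ℂ => f (Sum.inl z)) := Iff.rfl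

theorem isClosed_diff : IsClosed {f : C(ℂ, ℂ) | Differentiable ℂ f} := by
  rw [isClosed_iff_forall_filter]
  intro f F hF hFs hFf
  have h1 : Tendsto (fun g : C(ℂ, ℂ) => g) F (𝓝 f) := hFf
  rw [ContinuousMap.tendsto_iff_tendstoLocallyUniformly] at h1
  have h2 : TendstoLocallyUniformlyOn (fun (g : C(ℂ, ℂ)) a => g a) f F Set.univ :=
    tendstoLocallyUniformlyOn_univ.2 h1
  have h3 : ∀ᶠ g : C(ℂ, ℂ) in F, DifferentiableOn ℂ g Set.univ := by
    have := hFs (mem_principal_self _)
    filter_upwards [this] with g hg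
    exact Differentiable.differentiableOn hg
  have := h2.differentiableOn h3 isOpen_univ
  exact differentiableOn_univ.1 this

theorem isClosed_A : IsClosed (A : Set C(X, ℂ)) := by
  have : Continuous resL := ContinuousMap.continuous_precomp _
  exact isClosed_diff.preimage this

theorem isFrechet_A : IsFrechetAlgebra A :=
  (isFrechet_C X).subalgebra A isClosed_A

/-- glue a holomorphic function on `ℂ` and a continuous function on `[0,1]` -/
noncomputable def glue (f : ℂ → ℂ) (hf : Differentiable ℂ f) (g : C(unitInterval, ℂ)) : A :=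
  ⟨⟨Sum.elim f g, hf.continuous.sumElim g.continuous⟩, hf⟩

theorem A_ext {a b : A} (h1 : ∀ z, a.1 (Sum.inl z) = b.1 (Sum.inl z))
    (h2 : ∀ t, a.1 (Sum.inr t) = b.1 (Sum.inr t)) : a = b := by
  apply Subtype.ext
  ext x
  rcases x with z | t
  · exact h1 z
  · exact h2 t

/-- the function which is `1` on `ℂ` and `0` on `[0,1]` -/
noncomputable def eA : A := glue (fun _ => 1) (differentiable_const _) 0

/-- the function which is `z` on `ℂ` and `0` on `[0,1]` -/
noncomputable def zA : A := glue (fun z => z) differentiable_id 0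

/-- evaluation at a point, as a character -/
noncomputable def evA (x : X) : characterSpace ℂ A :=
  ⟨⟨{ toFun := fun a => a.1 x, map_add' := fun _ _ => rfl, map_smul' := fun _ _ => rfl },
      (continuous_eval_const x).comp continuous_subtype_val⟩, by
    constructor
    · intro h
      have := DFunLike.congr_fun h (1 : A)
      change (1 : ℂ) = 0 at this
      exact one_ne_zero this
    · intro a b
      rfl⟩

theorem evA_apply (x : X) (a : A) : evA x a = a.1 x := rfl

/-- the part of the spectrum over the plane -/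
def YA : Set (characterSpace ℂ A) := {χ | χ eA ≠ 0}

theorem isOpen_YA : IsOpen YA := by
  have : Continuous (fun χ : characterSpace ℂ A => χ eA) :=
    (WeakDual.eval_continuous eA).comp continuous_subtype_val
  exact isOpen_ne_fun this continuous_const

theorem eA_apply (χ : YA) : χ.1 eA = 1 := by
  have h1 : eA * eA = eA := by
    apply A_ext
    · intro z
      change (1 : ℂ) * 1 = 1
      ring
    · intro t
      change (0 : ℂ) * 0 = 0
      ring
  have h2 : χ.1 eA * χ.1 eA = χ.1 eA := by rw [← map_mul, h1]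
  have h3 : χ.1 eA ≠ 0 := χ.2
  exact mul_left_cancel₀ h3 (by rw [h2, mul_one])

theorem apply_YA (χ : YA) (a : A) : χ.1 a = a.1 (Sum.inl (χ.1 zA)) := by
  set c := χ.1 zA with hc
  let f : ℂ → ℂ := fun z => a.1 (Sum.inl z)
  have hf : Differentiable ℂ f := a.2
  have hg : Differentiable ℂ (dslope f c) := by
    rw [← differentiableOn_univ, Complex.differentiableOn_dslope univ_mem, differentiableOn_univ]
    exact hf
  have h1 : a * eA + c • (eA * glue (dslope f c) hg 0) =
      f c • eA + zA * glue (dslope f c) hg 0 := by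
    apply A_ext
    · intro z
      change f z * 1 + c * (1 * dslope f c z) = f c * 1 + z * dslope f c z
      have := sub_smul_dslope f c z
      rw [smul_eq_mul] at this
      linear_combination this.symm
    · intro t
      change a.1 (Sum.inr t) * 0 + c * (0 * 0) = f c * 0 + 0 * 0
      ring
  have h2 := congrArg χ.1 h1
  rw [map_add, map_add, map_smul, map_smul, map_mul, map_mul, map_mul, eA_apply, ← hc] at h2
  simp only [smul_eq_mul] at h2
  change χ.1 a = f c
  linear_combination h2

/-- the open part `YA` of the spectrum is homeomorphic to the plane -/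
noncomputable def homeoA : YA ≃ₜ ℂ where
  toFun χ := χ.1 zA
  invFun z := ⟨evA (Sum.inl z), by
    change (1 : ℂ) ≠ 0
    exact one_ne_zero⟩
  left_inv χ := by
    apply Subtype.ext
    apply DFunLike.ext
    intro a
    rw [apply_YA χ a]
    rfl
  right_inv z := rfl
  continuous_toFun :=
    ((WeakDual.eval_continuous zA).comp continuous_subtype_val).comp continuous_subtype_val
  continuous_invFun := by
    refine Continuous.subtype_mk (Continuous.subtype_mk ?_ _) _
    refine WeakDual.continuous_of_continuous_eval fun a => ?_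
    exact a.1.continuous.comp continuous_inl

theorem isLocallyStein_A : IsLocallyStein A := by
  have hH : ∀ h : YA → ℂ, h ∈ (ofHomeo homeoA).Hol ↔ ∃ a : A, ∀ χ : YA, h χ = χ.1 a := by
    intro h
    rw [ofHomeo_mem_Hol]
    constructor
    · intro hh
      refine ⟨glue (h ∘ homeoA.symm) hh 0, fun χ => ?_⟩
      rw [apply_YA]
      change h χ = h (homeoA.symm (homeoA χ))
      rw [homeoA.symm_apply_apply]
    · rintro ⟨a, ha⟩
      have : h ∘ homeoA.symm = fun z => a.1 (Sum.inl z) := by
        ext z
        rw [Function.comp_apply, ha]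
        rfl
      rw [this]
      exact a.2
  refine ⟨YA, isOpen_YA, ⟨(homeoA.symm 0).1, (homeoA.symm 0).2⟩, ofHomeo homeoA,
    ofHomeo_isStein _, ?_, ?_⟩
  · intro a
    exact (hH _).2 ⟨a, fun _ => rfl⟩
  · have h1 : {h : C(YA, ℂ) | ∃ a : A, (h : YA → ℂ) = gelfandOn YA a} =
        {h : C(YA, ℂ) | (h : YA → ℂ) ∈ (ofHomeo homeoA).Hol} := by
      ext h
      constructor
      · rintro ⟨a, ha⟩
        exact (hH h).2 ⟨a, fun χ => congrFun ha χ⟩
      · intro hh
        obtain ⟨a, ha⟩ := (hH h).1 hh
        exact ⟨a, funext ha⟩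
    rw [h1]
    refine IsClosed.closure_eq ?_
    have h2 : {h : C(YA, ℂ) | (h : YA → ℂ) ∈ (ofHomeo homeoA).Hol} =
        (fun h : C(YA, ℂ) => h.comp (⟨homeoA.symm, homeoA.symm.continuous⟩ : C(ℂ, YA))) ⁻¹'
          {f : C(ℂ, ℂ) | Differentiable ℂ f} := by
      ext h
      exact ofHomeo_mem_Hol _ _
    rw [h2]
    exact isClosed_diff.preimage (ContinuousMap.continuous_precomp _)

/-! ### The closed subalgebra `B` -/

/-- the closed subalgebra `{(f(0), f)}` of `Hol(ℂ) × C([0,1])` -/
noncomputable def B : Subalgebra ℂ A where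
  carrier := {a | ∀ z : ℂ, a.1 (Sum.inl z) = a.1 (Sum.inr 0)}
  mul_mem' := fun {a b} ha hb z => by
    change a.1 (Sum.inl z) * b.1 (Sum.inl z) = a.1 (Sum.inr 0) * b.1 (Sum.inr 0)
    rw [ha z, hb z]
  add_mem' := fun {a b} ha hb z => by
    change a.1 (Sum.inl z) + b.1 (Sum.inl z) = a.1 (Sum.inr 0) + b.1 (Sum.inr 0)
    rw [ha z, hb z]
  algebraMap_mem' r := fun z => rfl

noncomputable instance instCommRingB : CommRing B :=
  @Subalgebra.toCommRing ℂ A _ (Subalgebra.toCommRing A) _ B

theorem isClosed_B : IsClosed (B : Set A) := by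
  have h1 : ∀ x : X, Continuous (fun a : A => a.1 x) := fun x =>
    (continuous_eval_const x).comp continuous_subtype_val
  have : (B : Set A) = ⋂ z : ℂ, {a : A | a.1 (Sum.inl z) = a.1 (Sum.inr 0)} := by
    ext a
    simp only [Set.mem_iInter, Set.mem_ofPred_eq]
    rfl
  rw [this]
  exact isClosed_iInter fun z => isClosed_eq (h1 _) (h1 _)

theorem isFrechet_B : IsFrechetAlgebra B := isFrechet_A.subalgebra B isClosed_B

/-- restriction to the interval, `B → C([0,1])` -/
noncomputable def rB (b : B) : C(unitInterval, ℂ) := b.1.1.comp ⟨Sum.inr, continuous_inr⟩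

/-- the inverse map `C([0,1]) → B` as an algebra homomorphism -/
noncomputable def sB : C(unitInterval, ℂ) →ₐ[ℂ] B where
  toFun g := ⟨glue (fun _ => g 0) (differentiable_const _) g, fun _ => rfl⟩
  map_one' := Subtype.ext (A_ext (fun _ => rfl) fun _ => rfl)
  map_mul' _ _ := Subtype.ext (A_ext (fun _ => rfl) fun _ => rfl)
  map_zero' := Subtype.ext (A_ext (fun _ => rfl) fun _ => rfl)
  map_add' _ _ := Subtype.ext (A_ext (fun _ => rfl) fun _ => rfl)
  commutes' _ := Subtype.ext (A_ext (fun _ => rfl) fun _ => rfl)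

theorem sB_rB (b : B) : sB (rB b) = b :=
  Subtype.ext (A_ext (fun z => (b.2 z).symm) fun _ => rfl)

/-- the retraction of `X` onto the interval -/
noncomputable def retr : C(X, unitInterval) :=
  ⟨Sum.elim (fun _ => 0) id, continuous_const.sumElim continuous_id⟩

theorem continuous_sB : Continuous sB := by
  refine Continuous.subtype_mk (Continuous.subtype_mk ?_ _) _
  have : Continuous (fun g : C(unitInterval, ℂ) => g.comp retr) :=
    ContinuousMap.continuous_precomp _
  convert this using 2 with g
  ext x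
  rcases x with z | t <;> rfl

/-- evaluation at a point of the interval, as a character of `B` -/
noncomputable def evB (t : unitInterval) : characterSpace ℂ B :=
  ⟨⟨{ toFun := fun b => b.1.1 (Sum.inr t), map_add' := fun _ _ => rfl,
      map_smul' := fun _ _ => rfl },
      (continuous_eval_const (Sum.inr t : X)).comp
        (continuous_subtype_val.comp continuous_subtype_val)⟩, by
    constructor
    · intro h
      have := DFunLike.congr_fun h (1 : B)
      change (1 : ℂ) = 0 at this
      exact one_ne_zero this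
    · intro a b
      rfl⟩

theorem evB_apply (t : unitInterval) (b : B) : evB t b = b.1.1 (Sum.inr t) := rfl

theorem evB_surjective (χ : characterSpace ℂ B) : ∃ t, evB t = χ := by
  -- pull `χ` back to `C([0,1])`
  let ψ : characterSpace ℂ C(unitInterval, ℂ) :=
    ⟨⟨{ toFun := fun g => χ (sB g)
        map_add' := fun a b => by rw [map_add, map_add]
        map_smul' := fun c a => by rw [map_smul, map_smul]; rfl },
        (χ.1.2).comp continuous_sB⟩, by
      constructor
      · intro h
        have h1 := DFunLike.congr_fun h (1 : C(unitInterval, ℂ))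
        change χ (sB 1) = 0 at h1
        rw [map_one, map_one] at h1
        exact one_ne_zero h1
      · intro a b
        change χ (sB (a * b)) = χ (sB a) * χ (sB b)
        rw [map_mul, map_mul]⟩
  obtain ⟨t, ht⟩ := (WeakDual.CharacterSpace.homeoEval unitInterval ℂ).surjective ψ
  refine ⟨t, ?_⟩
  apply DFunLike.ext
  intro b
  have h2 := DFunLike.congr_fun ht (rB b)
  change (rB b) t = χ (sB (rB b)) at h2
  rw [sB_rB] at h2
  exact h2

theorem evB_injective : Function.Injective evB := by
  intro s t hst
  have h := DFunLike.congr_fun hst (sB ⟨fun u => ((u : ℝ) : ℂ), by fun_prop⟩)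
  rw [evB_apply, evB_apply] at h
  change ((s : ℝ) : ℂ) = ((t : ℝ) : ℂ) at h
  exact Subtype.ext (Complex.ofReal_injective h)

theorem continuous_evB : Continuous evB := by
  refine Continuous.subtype_mk ?_ _
  refine WeakDual.continuous_of_continuous_eval fun b => ?_
  exact b.1.1.continuous.comp continuous_inr

/-- the spectrum of `B` is the unit interval -/
noncomputable def homeoB : unitInterval ≃ₜ characterSpace ℂ B :=
  Continuous.homeoOfEquivCompactToT2
    (f := Equiv.ofBijective evB ⟨evB_injective, evB_surjective⟩) continuous_evB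

theorem homeoB_apply (t : unitInterval) : homeoB t = evB t := rfl

/-- No non-empty open subset of the spectrum of `B` has a reduced complex structure for which all
Gelfand transforms are holomorphic. -/
theorem no_structure (Y : Set (Spectrum B)) (hYo : IsOpen Y) (hYn : Y.Nonempty)
    (S : ReducedComplexSpace Y) (hS : ∀ b : B, gelfandOn Y b ∈ S.Hol) : False := by
  obtain ⟨y, hy⟩ := hYn
  obtain ⟨U, n, k, W, g, φ, hyU, hUo, -, -, hemb, -, hloc⟩ := S.local_model ⟨y, hy⟩
  obtain ⟨t₀, rfl⟩ := homeoB.surjective y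
  let y₀ : Y := ⟨homeoB t₀, hy⟩
  -- `φ` is continuous and injective on `U`
  have hφc : ContinuousOn φ U := continuousOn_iff_continuous_domRestrict.2 hemb.continuous
  have hφi : Set.InjOn φ U := Set.injOn_iff_injective.2 hemb.injective
  -- the open neighbourhood of `t₀` in the interval corresponding to `U`
  let V : Set unitInterval := homeoB ⁻¹' (Subtype.val '' U)
  have hVo : IsOpen V := (hYo.isOpenMap_subtype_val _ hUo).preimage homeoB.continuous
  have htV : t₀ ∈ V := ⟨y₀, hyU, rfl⟩
  have hVY : ∀ t ∈ V, homeoB t ∈ Y := by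
    rintro t ⟨u, _, hu⟩
    rw [← hu]
    exact u.2
  have hVU : ∀ t (ht : t ∈ V), (⟨homeoB t, hVY t ht⟩ : Y) ∈ U := by
    rintro t ⟨u, hu, hut⟩
    convert hu
    exact hut.symm
  -- the function `q`
  let j : V → Y := fun t => ⟨homeoB t, hVY t t.2⟩
  have hj : Continuous j := (homeoB.continuous.comp continuous_subtype_val).subtype_mk _
  have hφj : Continuous (fun t : V => φ (j t)) :=
    hφc.comp_continuous hj fun t => hVU t t.2
  -- closed neighbourhood of `t₀` in `V`
  obtain ⟨C, hCn, hCc, hCV⟩ := exists_mem_nhds_isClosed_subset (hVo.mem_nhds htV)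
  let q : C(C, ℝ) := ⟨fun t => Real.sqrt ‖φ (j ⟨t, hCV t.2⟩) - φ y₀‖, by
    refine Real.continuous_sqrt.comp (Continuous.norm (Continuous.sub ?_ continuous_const))
    exact hφj.comp (continuous_subtype_val.subtype_mk _)⟩
  obtain ⟨G, hG⟩ := ContinuousMap.exists_restrict_eq hCc q
  have hGq : ∀ t (ht : t ∈ C), G t = Real.sqrt ‖φ (j ⟨t, hCV ht⟩) - φ y₀‖ := by
    intro t ht
    have := DFunLike.congr_fun hG ⟨t, ht⟩
    exact this
  let b : B := sB ⟨fun t => ((G t : ℝ) : ℂ), by fun_prop⟩
  have hb : ∀ t, homeoB t b = ((G t : ℝ) : ℂ) := fun t => rfl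
  obtain ⟨F, hF, hbF⟩ := (hloc y₀ hyU _).1 (hS b y₀)
  -- `F` is Lipschitz at `φ y₀`
  have hFO := hF.differentiableAt.isBigO_sub
  obtain ⟨c, hc⟩ := hFO.bound
  have hφt : Tendsto φ (𝓝 y₀) (𝓝 (φ y₀)) := hφc.continuousAt (hUo.mem_nhds hyU)
  have h1 : ∀ᶠ w : Y in 𝓝 y₀, ‖((w : characterSpace ℂ B) b : ℂ) - (y₀ : characterSpace ℂ B) b‖
      ≤ c * ‖φ w - φ y₀‖ := by
    have h2 := hφt.eventually hc
    have h3 : (y₀ : characterSpace ℂ B) b = F (φ y₀) := hbF.self_of_nhds
    filter_upwards [hbF, h2] with w hw1 hw2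
    rw [h3]
    have : (w : characterSpace ℂ B) b = F (φ w) := hw1
    rw [this]
    exact hw2
  -- transport to the interval
  have hjt : Tendsto j (𝓝 ⟨t₀, htV⟩) (𝓝 y₀) := hj.tendsto _
  have h4 := hjt.eventually h1
  have h5 : ∀ᶠ t : V in 𝓝 ⟨t₀, htV⟩, c * Real.sqrt ‖φ (j t) - φ y₀‖ < 1 := by
    have : Continuous (fun t : V => c * Real.sqrt ‖φ (j t) - φ y₀‖) := by
      refine continuous_const.mul (Real.continuous_sqrt.comp
        (Continuous.norm (Continuous.sub hφj continuous_const)))
    have h6 := this.tendsto (⟨t₀, htV⟩ : V)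
    refine h6.eventually (gt_mem_nhds ?_)
    change c * Real.sqrt ‖φ y₀ - φ y₀‖ < 1
    simp
  have h7 : ∀ᶠ t : V in 𝓝 ⟨t₀, htV⟩, (t : unitInterval) ∈ C :=
    (continuous_subtype_val.tendsto (⟨t₀, htV⟩ : V)).eventually_mem hCn
  have h8 : ∀ᶠ t : V in 𝓝 ⟨t₀, htV⟩, t = ⟨t₀, htV⟩ := by
    filter_upwards [h4, h5, h7] with t ht4 ht5 ht7
    set r := Real.sqrt ‖φ (j t) - φ y₀‖ with hr
    have hr0 : 0 ≤ r := Real.sqrt_nonneg _
    have hr2 : ‖φ (j t) - φ y₀‖ = r ^ 2 := (Real.sq_sqrt (norm_nonneg _)).symm
    have e1 : ((j t : characterSpace ℂ B) b : ℂ) = ((r : ℝ) : ℂ) := by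
      change homeoB t b = _
      rw [hb, hGq t ht7]
    have e2 : ((y₀ : characterSpace ℂ B) b : ℂ) = 0 := by
      change homeoB t₀ b = _
      rw [hb, hGq t₀ (mem_of_mem_nhds hCn)]
      change ((Real.sqrt ‖φ y₀ - φ y₀‖ : ℝ) : ℂ) = 0
      simp
    rw [e1, e2, sub_zero, hr2, Complex.norm_real, Real.norm_of_nonneg hr0] at ht4
    have hr00 : r = 0 := by
      by_contra hne
      have hpos : 0 < r := lt_of_le_of_ne hr0 (Ne.symm hne)
      have : c * r ^ 2 < r := by
        calc c * r ^ 2 = (c * r) * r := by ring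
          _ < 1 * r := by
            exact mul_lt_mul_of_pos_right ht5 hpos
          _ = r := one_mul r
      linarith
    have h9 : φ (j t) = φ y₀ := by
      have : ‖φ (j t) - φ y₀‖ = 0 := by rw [hr2, hr00]; ring
      exact sub_eq_zero.1 (norm_eq_zero.1 this)
    have h10 : j t = y₀ := hφi (hVU t t.2) hyU h9
    have h11 : homeoB t = homeoB t₀ := congrArg Subtype.val h10
    exact Subtype.ext (homeoB.injective h11)
  have h12 : ∀ᶠ t in 𝓝 t₀, t = t₀ := by
    have h13 : map (Subtype.val : V → unitInterval) (𝓝 ⟨t₀, htV⟩) = 𝓝 t₀ :=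
      hVo.isOpenEmbedding_subtypeVal.map_nhds_eq ⟨t₀, htV⟩
    rw [← h13, eventually_map]
    filter_upwards [h8] with t ht
    rw [ht]
  have h14 : NeBot (𝓝[≠] t₀) := inferInstance
  have h15 : ∀ᶠ t in 𝓝[≠] t₀, False := by
    rw [eventually_nhdsWithin_iff]
    filter_upwards [h12] with t ht hne
    exact hne ht
  obtain ⟨_, h⟩ := h15.exists
  exact h

/-- There are a locally Stein Fréchet algebra `A` and a closed unital subalgebra `B` of `A` which
is not locally Stein; in fact no non-empty open subset of the spectrum of `B` has the structure of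
a reduced complex space for which all Gelfand transforms are holomorphic. -/
theorem result : ∃ (A : Type) (_ : CommRing A) (_ : Algebra ℂ A) (_ : TopologicalSpace A),
    IsFrechetAlgebra A ∧ IsLocallyStein A ∧
    ∃ B : Subalgebra ℂ A, IsClosed (B : Set A) ∧ IsFrechetAlgebra B ∧ ¬ IsLocallyStein B ∧
      ¬ HasHolomorphicPart B := by
  refine ⟨A, inferInstance, inferInstance, inferInstance, isFrechet_A, isLocallyStein_A,
    B, isClosed_B, isFrechet_B, ?_, ?_⟩
  · rintro ⟨Y, hYo, hYn, S, -, hS, -⟩
    exact no_structure Y hYo hYn S hS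
  · rintro ⟨Y, hYo, hYn, S, hS⟩
    exact no_structure Y hYo hYn S hS

end Pool.Agent.Results.MP_591444_an.ContinuousFunctionsSubalgebra
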